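import Pool.Agent.R41.ClawPath

/-!
MP_feab4e, Q1: there is a connected claw-free graph (on 36 vertices) whose longest paths have no
common vertex.
-/

set_option autoImplicit false

namespace Pool.Agent.Results.MP_feab4e_co.ClawFree

open SimpleGraph

/-- `G` is `K_{1,3}`-free: no induced subgraph of `G` is isomorphic to `K_{1,3}`. -/
def IsClawFree {V : Type} (G : SimpleGraph V) : Prop :=
  IsEmpty (completeBipartiteGraph (Fin 1) (Fin 3) ↪g G)

/-- `p` is a longest path of `G`. -/
def IsLongestPath {V : Type} (G : SimpleGraph V) {u v : V} (p : G.Walk u v) : Prop :=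
  p.IsPath ∧ ∀ (a b : V) (q : G.Walk a b), q.IsPath → q.length ≤ p.length

/-- some vertex of `G` lies on every longest path of `G` -/
def CommonVertexProperty {V : Type} (G : SimpleGraph V) : Prop :=
  ∃ x : V, ∀ (u v : V) (p : G.Walk u v), IsLongestPath G p → x ∈ p.support

open Pool.Agent.R41.CF in
lemma clawFree_G36 : IsClawFree G36 := by
  refine ⟨fun φ => ?_⟩
  have hadj : ∀ i : Fin 3, G36.Adj (φ (Sum.inl 0)) (φ (Sum.inr i)) := fun i =>
    φ.map_rel_iff.2 (by simp)
  have hnon : ∀ i j : Fin 3, i ≠ j → ((φ (Sum.inr i)).val / 3 ≠ (φ (Sum.inr j)).val / 3) := by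
    intro i j hij h
    have h1 : G36.Adj (φ (Sum.inr i)) (φ (Sum.inr j)) := by
      refine ⟨fun h2 => hij ?_, Or.inl h⟩
      exact Sum.inr_injective (φ.injective h2)
    have h2 := φ.map_rel_iff.1 h1
    simp at h2
  -- at most one neighbour is in the triangle of the centre, at most one is outside
  have hout : ∀ i j : Fin 3, i ≠ j → (φ (Sum.inl 0)).val / 3 ≠ (φ (Sum.inr i)).val / 3 →
      (φ (Sum.inl 0)).val / 3 ≠ (φ (Sum.inr j)).val / 3 → False := by
    intro i j hij h1 h2
    exact hij (Sum.inr_injective (φ.injective (outside_unique (hadj i) (hadj j) h1 h2)))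
  have h01 := hnon 0 1 (by decide)
  have h02 := hnon 0 2 (by decide)
  have h12 := hnon 1 2 (by decide)
  by_cases c0 : (φ (Sum.inl 0)).val / 3 = (φ (Sum.inr 0)).val / 3
  · exact hout 1 2 (by decide) (fun h => h01 (c0.symm.trans h)) (fun h => h02 (c0.symm.trans h))
  · by_cases c1 : (φ (Sum.inl 0)).val / 3 = (φ (Sum.inr 1)).val / 3
    · exact hout 0 2 (by decide) c0 (fun h => h12 (c1.symm.trans h))
    · exact hout 0 1 (by decide) c0 c1

/-- Not every connected claw-free graph has the common-vertex property. -/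
theorem result : ∃ (V : Type) (_ : Fintype V) (G : SimpleGraph V),
    Fintype.card V = 36 ∧ G.Connected ∧ IsClawFree G ∧ ¬ CommonVertexProperty G := by
  refine ⟨Fin 36, inferInstance, Pool.Agent.R41.CF.G36, by simp, Pool.Agent.R41.CF.connected,
    clawFree_G36, ?_⟩
  rintro ⟨x, hx⟩
  obtain ⟨u, v, p, hp, hl, hxp⟩ := Pool.Agent.R41.CF.avoid x
  refine hxp (hx u v p ⟨hp, fun a b q hq => ?_⟩)
  rw [hl]
  exact Pool.Agent.R41.CF.path_le q hq

end Pool.Agent.Results.MP_feab4e_co.ClawFree
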